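import Pool.Agent.H58.LM.Ker

/-! Most transversals in a spread set have their graph in a large down-closed family. -/

set_option autoImplicit false
set_option linter.unusedSectionVars false

namespace H80SP

open Finset
open Pool.Agent.H58.LG (zz Pure agr mem_agr Spread decay sum_large)
open Pool.Agent.H58.LM (sg chi chi_empty pterm)

variable {ι α : Type*} [Fintype ι] [DecidableEq ι] [Fintype α] [DecidableEq α]

/-- The graph of `x` outside `I`. -/
def gs (I : Finset ι) (x : ι → α) : Finset (ι × α) :=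
  (univ.filter fun i => i ∉ I).image fun i => (i, x i)

theorem spread_half' {I : Finset ι} {κ : ℝ} (hκ : 0 ≤ κ) {X X' : Finset (ι → α)} (hX : X' ⊆ X)
    (hc : X.card ≤ 2 * X'.card)
    (h : Spread I κ X.card (fun x => if x ∈ X then (1 : ℝ) else 0)) :
    Spread I (2 * κ) X'.card (fun x => if x ∈ X' then (1 : ℝ) else 0) := by
  intro T hT b
  rw [Finset.sum_ite_mem, Finset.sum_const, nsmul_eq_mul, mul_one]
  rcases T.eq_empty_or_nonempty with h0 | h0
  · subst h0
    rw [Finset.card_empty, pow_zero, one_mul]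
    exact_mod_cast Finset.card_le_card Finset.inter_subset_right
  · have h1 := h T hT b
    rw [Finset.sum_ite_mem, Finset.sum_const, nsmul_eq_mul, mul_one] at h1
    have h2 : ((agr T b ∩ X').card : ℝ) ≤ (agr T b ∩ X).card := by
      exact_mod_cast Finset.card_le_card (Finset.inter_subset_inter_left hX)
    refine h2.trans (h1.trans ?_)
    have h3 : (X.card : ℝ) ≤ 2 * X'.card := by exact_mod_cast hc
    have h4 : (2 : ℝ) ^ 1 ≤ 2 ^ T.card := pow_le_pow_right₀ (by norm_num) (Finset.card_pos.mpr h0)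
    calc κ ^ T.card * X.card ≤ κ ^ T.card * (2 * X'.card) :=
          mul_le_mul_of_nonneg_left h3 (by positivity)
      _ = (2 ^ 1 * κ ^ T.card) * X'.card := by ring
      _ ≤ (2 ^ T.card * κ ^ T.card) * X'.card := by
          refine mul_le_mul_of_nonneg_right (mul_le_mul_of_nonneg_right h4 (by positivity))
            (Nat.cast_nonneg _)
      _ = _ := by rw [mul_pow]

/-- the set of the pairs coloured `true` -/
def tset (y : ι → α → Bool) : Finset (ι × α) := univ.filter fun v => y v.1 v.2 = true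

theorem tset_card (𝒟 : Finset (Finset (ι × α))) :
    ((univ : Finset (ι → α → Bool)).filter fun y => tset y ∈ 𝒟).card = 𝒟.card := by
  refine card_bij (fun y _ => tset y) (fun y hy => (mem_filter.1 hy).2) ?_ ?_
  · intro y _ y' _ h
    funext i a
    have h1 : ((i, a) ∈ tset y) ↔ ((i, a) ∈ tset y') := by rw [h]
    unfold tset at h1
    simp only [mem_filter, mem_univ, true_and] at h1
    exact Bool.eq_iff_iff.2 h1
  · intro S hS
    refine ⟨fun i a => decide ((i, a) ∈ S), ?_, ?_⟩
    · rw [mem_filter]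
      refine ⟨mem_univ _, ?_⟩
      have e : tset (fun i a => decide ((i, a) ∈ S)) = S := by
        ext ⟨i, a⟩
        simp [tset]
      rw [e]
      exact hS
    · ext ⟨i, a⟩
      simp [tset]

theorem prod_sub (J : Finset ι) (z : ι → Bool) :
    ∏ i ∈ J, (1 - sg (z i)) = ∑ T ∈ J.powerset, (-1 : ℝ) ^ T.card * chi T z := by
  have h1 : ∀ i ∈ J, (1 - sg (z i)) = 1 + (-1) * sg (z i) := fun i _ => by ring
  rw [prod_congr rfl h1, prod_one_add]
  refine sum_congr rfl fun T _ => ?_
  rw [prod_mul_distrib, prod_const]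
  rfl

theorem std_many {p : ℕ} (hp : 1 ≤ p) {I : Finset ι} {x0 : ι → α} {X : Finset (ι → α)}
    (hXne : X.Nonempty) (hX0 : ∀ x ∈ X, ∀ i ∈ I, x i = x0 i)
    {κ : ℝ} (hκ : 0 ≤ κ) (hXs : Spread I κ X.card (fun x => if x ∈ X then 1 else 0))
    {h : ℝ} (hh0 : 0 ≤ h) (hh : 16 * p * κ ≤ h ^ 2) (hρ : Fintype.card ι * h ≤ 1 / 8)
    (𝒟 : Finset (Finset (ι × α))) (hdown : ∀ S ∈ 𝒟, ∀ T ⊆ S, T ∈ 𝒟)
    (hcard : (Fintype.card (ι → α → Bool) : ℝ) ≤ 2 ^ p * 𝒟.card) :
    2 * (X.filter fun x => gs I x ∉ 𝒟).card < X.card := by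
  classical
  by_contra hcon
  push Not at hcon
  obtain ⟨Xb, hXb⟩ : ∃ Xb : Finset (ι → α), Xb = X.filter fun x => gs I x ∉ 𝒟 := ⟨_, rfl⟩
  rw [← hXb] at hcon
  have hsub : Xb ⊆ X := by rw [hXb]; exact filter_subset _ _
  have hXbpos : (0 : ℝ) < Xb.card := by
    have := card_pos.2 hXne
    have h1 : 0 < Xb.card := by omega
    exact_mod_cast h1
  have hsp := spread_half' hκ hsub hcon hXs
  obtain ⟨Z, hZ⟩ : ∃ Z : Finset (ι → α → Bool), Z = univ.filter fun y => tset y ∈ 𝒟 := ⟨_, rfl⟩
  have hZc : Z.card = 𝒟.card := by rw [hZ]; exact tset_card 𝒟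
  have hZpos : (0 : ℝ) < Z.card := by
    rw [hZc]
    by_contra hc
    push Not at hc
    have h1 : (0 : ℝ) < Fintype.card (ι → α → Bool) := by
      exact_mod_cast Fintype.card_pos
    have h2 : (2 : ℝ) ^ p * 𝒟.card ≤ 0 := mul_nonpos_of_nonneg_of_nonpos (by positivity) hc
    linarith
  obtain ⟨f, hf⟩ : ∃ f : (ι → α) → ℝ, f = fun x => if x ∈ Xb then (1 : ℝ) else 0 := ⟨_, rfl⟩
  obtain ⟨g, hg⟩ : ∃ g : (ι → α → Bool) → ℝ, g = fun y => if y ∈ Z then (1 : ℝ) else 0 := ⟨_, rfl⟩
  have hsumf : ∑ x, f x = Xb.card := by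
    rw [hf]
    simp
  have hsumg : ∑ y, g y = Z.card := by
    rw [hg]
    simp
  rw [← hf] at hsp
  have hf0 : ∀ x, 0 ≤ f x := by
    intro x
    rw [hf]
    dsimp only
    split_ifs <;> norm_num
  have hg0 : ∀ y, 0 ≤ g y := by
    intro y
    rw [hg]
    dsimp only
    split_ifs <;> norm_num
  have hg1 : ∀ y, g y ≤ 1 := by
    intro y
    rw [hg]
    dsimp only
    split_ifs <;> norm_num
  have hfF : ∀ x, f x ≠ 0 → ∀ i ∈ I, x i = x0 i := by
    intro x hx
    rw [hf] at hx
    dsimp only at hx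
    refine hX0 x (hsub ?_)
    by_contra hc
    exact hx (if_neg hc)
  -- the product vanishes
  have hzero : ∀ x y, f x * g y * ∏ i ∈ univ.filter (fun i => i ∉ I), (1 - sg (zz x y i)) = 0 := by
    intro x y
    by_cases hx : x ∈ Xb
    swap
    · have : f x = 0 := by rw [hf]; exact if_neg hx
      rw [this, zero_mul, zero_mul]
    by_cases hy : y ∈ Z
    swap
    · have : g y = 0 := by rw [hg]; exact if_neg hy
      rw [this, mul_zero, zero_mul]
    have hex : ∃ i ∈ univ.filter (fun i => i ∉ I), zz x y i = false := by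
      by_contra hc
      push Not at hc
      rw [hXb, mem_filter] at hx
      refine hx.2 ?_
      rw [hZ, mem_filter] at hy
      refine hdown _ hy.2 _ ?_
      intro v hv
      obtain ⟨i, hi, rfl⟩ := mem_image.1 hv
      have h1 := hc i hi
      unfold tset
      rw [mem_filter]
      refine ⟨mem_univ _, ?_⟩
      cases h2 : zz x y i
      · exact absurd h2 h1
      · exact h2
    obtain ⟨i, hi, hzi⟩ := hex
    rw [prod_eq_zero hi (by rw [hzi]; simp [sg]), mul_zero]
  have hsum0 : ∑ T ∈ (univ.filter (fun i => i ∉ I)).powerset,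
      (-1 : ℝ) ^ T.card * ∑ x, ∑ y, f x * g y * chi T (zz x y) = 0 := by
    have h1 : ∑ x, ∑ y, f x * g y * ∏ i ∈ univ.filter (fun i => i ∉ I), (1 - sg (zz x y i)) = 0 :=
      sum_eq_zero fun x _ => sum_eq_zero fun y _ => hzero x y
    rw [← h1]
    simp only [prod_sub, mul_sum]
    rw [sum_comm]
    refine sum_congr rfl fun x _ => ?_
    rw [sum_comm]
    refine sum_congr rfl fun y _ => ?_
    refine sum_congr rfl fun T _ => ?_
    ring
  rw [← add_sum_erase _ _ (empty_mem_powerset _)] at hsum0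
  have hmain : (-1 : ℝ) ^ (∅ : Finset ι).card * ∑ x, ∑ y, f x * g y * chi ∅ (zz x y) =
      Xb.card * Z.card := by
    rw [card_empty, pow_zero, one_mul]
    simp only [chi_empty, mul_one]
    rw [← hsumf, ← hsumg, sum_mul_sum]
  rw [hmain] at hsum0
  have hrest : |∑ T ∈ (univ.filter (fun i => i ∉ I)).powerset.erase ∅,
      (-1 : ℝ) ^ T.card * ∑ x, ∑ y, f x * g y * chi T (zz x y)| ≤
      1 / 2 * (Xb.card * Z.card) := by
    refine (abs_sum_le_sum_abs _ _).trans ?_
    have e1 : ∀ T ∈ (univ.filter (fun i => i ∉ I)).powerset.erase ∅,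
        |(-1 : ℝ) ^ T.card * ∑ x, ∑ y, f x * g y * chi T (zz x y)| ≤
          2 * Xb.card * Z.card * h ^ T.card := by
      intro T hT
      rw [mem_erase, mem_powerset] at hT
      rw [abs_mul, abs_pow, abs_neg, abs_one, one_pow, one_mul]
      have h1 := pterm (f := f) (g := g) hp (I := I) (S := T) (x0 := x0) (κ := 2 * κ)
        (F := Xb.card) (b0 := 1) (G := Z.card) (h := h) (by positivity) hf0 hfF hsp hg0 hg1
        hsumg.le (by rw [one_mul, hZc]; exact hcard) hh0 (by
          refine le_trans (le_of_eq ?_) hh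
          ring)
      have h2 : T \ I = T := by
        rw [Finset.sdiff_eq_self_iff_disjoint, Finset.disjoint_left]
        intro i hi
        exact (mem_filter.1 (hT.2 hi)).2
      rwa [h2] at h1
    refine (sum_le_sum e1).trans ?_
    rw [← mul_sum]
    have e2 : ∑ T ∈ (univ.filter (fun i => i ∉ I)).powerset.erase ∅, h ^ T.card ≤
        2 * (1 / 8 : ℝ) ^ 1 := by
      refine le_trans ?_ (sum_large (ι := ι) 1 hh0 hρ (by norm_num))
      refine sum_le_sum_of_subset_of_nonneg ?_ fun T _ _ => by positivity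
      intro T hT
      rw [mem_erase] at hT
      rw [mem_filter]
      exact ⟨mem_univ _, card_pos.2 (nonempty_iff_ne_empty.2 hT.1)⟩
    have e3 : (0 : ℝ) ≤ 2 * Xb.card * Z.card := by positivity
    refine (mul_le_mul_of_nonneg_left e2 e3).trans (le_of_eq ?_)
    ring
  have h3 := (abs_le.1 hrest).1
  have h4 : (0 : ℝ) < Xb.card * Z.card := mul_pos hXbpos hZpos
  linarith

end H80SP
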